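import Mathlib

/-!
# Ratios of values of chromatic polynomials and cliques

For a graph `G` on `n` vertices, an integer `L ≥ n` and a clique `K` of `G`:
`P(G, L-1) / P(G, L) ≤ (1 - |K|/L) (1 - 1/L)^(n-|K|)`.
-/

set_option autoImplicit false
set_option linter.unusedVariables false
set_option linter.unusedSectionVars false

open Finset Function Classical

namespace Pool.Agent.Y491.Chrom

variable {V : Type} [Fintype V]

/-- proper colourings of `G` with colours in `Fin q`. -/
noncomputable def Col (G : SimpleGraph V) (q : ℕ) : Finset (V → Fin q) :=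
  Finset.univ.filter (fun φ => ∀ u v, G.Adj u v → φ u ≠ φ v)

lemma mem_Col {G : SimpleGraph V} {q : ℕ} {φ : V → Fin q} :
    φ ∈ Col G q ↔ ∀ u v, G.Adj u v → φ u ≠ φ v := by
  simp [Col]

/-- delete all edges at `x`. -/
def iso (G : SimpleGraph V) (x : V) : SimpleGraph V where
  Adj u v := G.Adj u v ∧ u ≠ x ∧ v ≠ x
  symm := ⟨fun u v h => ⟨h.1.symm, h.2.2, h.2.1⟩⟩
  loopless := ⟨fun u h => G.loopless.irrefl u h.1⟩

/-- add the edge `ab`. -/
def addE (G : SimpleGraph V) (a b : V) (hab : a ≠ b) : SimpleGraph V where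
  Adj u v := G.Adj u v ∨ (u = a ∧ v = b) ∨ (u = b ∧ v = a)
  symm := ⟨fun u v h => by
    rcases h with h | ⟨h1, h2⟩ | ⟨h1, h2⟩
    · exact Or.inl h.symm
    · exact Or.inr (Or.inr ⟨h2, h1⟩)
    · exact Or.inr (Or.inl ⟨h2, h1⟩)⟩
  loopless := ⟨fun u h => by
    rcases h with h | ⟨h1, h2⟩ | ⟨h1, h2⟩
    · exact G.loopless.irrefl u h
    · exact hab (h1.symm.trans h2)
    · exact hab (h2.symm.trans h1)⟩

/-- move all edges of `a` to `b` (identify `a` with `b`), and isolate `a`. -/
def contr (G : SimpleGraph V) (a b : V) (hab : ¬ G.Adj a b) : SimpleGraph V where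
  Adj u v := u ≠ a ∧ v ≠ a ∧ (G.Adj u v ∨ (u = b ∧ G.Adj a v) ∨ (v = b ∧ G.Adj a u))
  symm := ⟨fun u v h => by
    obtain ⟨h1, h2, h | h | h⟩ := h
    · exact ⟨h2, h1, Or.inl h.symm⟩
    · exact ⟨h2, h1, Or.inr (Or.inr h)⟩
    · exact ⟨h2, h1, Or.inr (Or.inl h)⟩⟩
  loopless := ⟨fun u h => by
    obtain ⟨h1, h2, h | ⟨h3, h4⟩ | ⟨h3, h4⟩⟩ := h
    · exact G.loopless.irrefl u h
    · subst h3; exact hab h4
    · subst h3; exact hab h4⟩

/-- neighbours -/
noncomputable def nb (G : SimpleGraph V) (x : V) : Finset V :=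
  Finset.univ.filter (fun v => G.Adj x v)

lemma mem_nb {G : SimpleGraph V} {x v : V} : v ∈ nb G x ↔ G.Adj x v := by simp [nb]

/-- the swapping involution -/
noncomputable def sw {q : ℕ} (x : V) (p : (V → Fin q) × Fin q) : (V → Fin q) × Fin q :=
  (update p.1 x p.2, p.1 x)

lemma sw_sw {q : ℕ} (x : V) (p : (V → Fin q) × Fin q) : sw x (sw x p) = p := by
  rcases p with ⟨φ, c⟩
  simp [sw]

/-- characterisation of proper colourings with the colour of `x` changed -/
lemma update_mem_Col {G : SimpleGraph V} {q : ℕ} (x : V) (φ : V → Fin q) (c : Fin q) :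
    update φ x c ∈ Col G q ↔ φ ∈ Col (iso G x) q ∧ c ∉ (nb G x).image φ := by
  rw [mem_Col, mem_Col]
  constructor
  · intro h
    refine ⟨fun u v huv => ?_, ?_⟩
    · have := h u v huv.1
      rwa [update_of_ne huv.2.1, update_of_ne huv.2.2] at this
    · intro hc
      rw [mem_image] at hc
      obtain ⟨v, hv, hvc⟩ := hc
      rw [mem_nb] at hv
      have := h x v hv
      rw [update_self, update_of_ne hv.ne'] at this
      exact this hvc.symm
  · rintro ⟨h1, h2⟩ u v huv
    by_cases hu : u = x
    · subst hu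
      rw [update_self, update_of_ne huv.ne']
      intro he
      exact h2 (mem_image.2 ⟨v, mem_nb.2 huv, he.symm⟩)
    · by_cases hv : v = x
      · subst hv
        rw [update_self, update_of_ne hu]
        intro he
        exact h2 (mem_image.2 ⟨u, mem_nb.2 huv.symm, he⟩)
      · rw [update_of_ne hu, update_of_ne hv]
        exact h1 u v ⟨huv, hu, hv⟩

/-- sums over proper colourings and an extra colour, after the swap -/
lemma sum_swap (G : SimpleGraph V) (q : ℕ) (x : V) (f : (V → Fin q) → ℝ) :
    (q : ℝ) * ∑ φ ∈ Col G q, f φ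
      = ∑ φ ∈ Col (iso G x) q, ∑ c ∈ Finset.univ \ (nb G x).image φ, f (update φ x c) := by
  have h1 : (q : ℝ) * ∑ φ ∈ Col G q, f φ
      = ∑ p ∈ (Finset.univ : Finset ((V → Fin q) × Fin q)).filter (fun p => p.1 ∈ Col G q),
          f p.1 := by
    have : (Finset.univ : Finset ((V → Fin q) × Fin q)).filter (fun p => p.1 ∈ Col G q)
        = (Col G q) ×ˢ (Finset.univ : Finset (Fin q)) := by
      ext p; simp
    rw [this, Finset.sum_product]
    simp [Finset.mul_sum]
  have h2 : ∑ φ ∈ Col (iso G x) q, ∑ c ∈ Finset.univ \ (nb G x).image φ, f (update φ x c)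
      = ∑ p ∈ (Finset.univ : Finset ((V → Fin q) × Fin q)).filter
          (fun p => p.1 ∈ Col (iso G x) q ∧ p.2 ∉ (nb G x).image p.1), f (update p.1 x p.2) := by
    rw [Finset.sum_filter, Fintype.sum_prod_type]
    rw [← Finset.sum_filter_add_sum_filter_not Finset.univ (fun φ => φ ∈ Col (iso G x) q)
      (f := fun φ => ∑ c : Fin q, if φ ∈ Col (iso G x) q ∧ c ∉ (nb G x).image φ
        then f (update φ x c) else 0)]
    have hz : ∑ φ ∈ Finset.univ.filter (fun φ => ¬ φ ∈ Col (iso G x) q),
        ∑ c : Fin q, (if φ ∈ Col (iso G x) q ∧ c ∉ (nb G x).image φ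
        then f (update φ x c) else 0) = 0 := by
      apply Finset.sum_eq_zero
      intro φ hφ
      apply Finset.sum_eq_zero
      intro c _
      rw [if_neg]
      exact fun h => (Finset.mem_filter.1 hφ).2 h.1
    rw [hz, add_zero]
    have hcol : Finset.univ.filter (fun φ => φ ∈ Col (iso G x) q) = Col (iso G x) q := by
      ext φ; simp
    rw [hcol]
    apply Finset.sum_congr rfl
    intro φ hφ
    rw [← Finset.sum_filter]
    apply Finset.sum_congr
    · ext c
      simp [hφ]
    · intros; rfl
  rw [h1, h2]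
  apply Finset.sum_nbij' (sw x) (sw x)
  · intro p hp
    simp only [Finset.mem_filter, Finset.mem_univ, true_and] at hp ⊢
    have : update (sw x p).1 x (sw x p).2 = p.1 := by
      have := sw_sw x p
      exact congrArg Prod.fst this
    rw [← update_mem_Col, this]
    exact hp
  · intro p hp
    simp only [Finset.mem_filter, Finset.mem_univ, true_and] at hp ⊢
    rw [← update_mem_Col] at hp
    exact hp
  · intro p _; exact sw_sw x p
  · intro p _; exact sw_sw x p
  · intro p _
    have : update (sw x p).1 x (sw x p).2 = p.1 := by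
      have := sw_sw x p
      exact congrArg Prod.fst this
    rw [this]

/-- removing a vertex -/
lemma card_remove (G : SimpleGraph V) (q : ℕ) (x : V) :
    (q : ℝ) * (Col G q).card
      = ∑ φ ∈ Col (iso G x) q, ((q : ℝ) - ((nb G x).image φ).card) := by
  have := sum_swap G q x (fun _ => 1)
  simp only [Finset.sum_const, nsmul_eq_mul, mul_one] at this
  rw [this]
  apply Finset.sum_congr rfl
  intro φ _
  rw [Finset.card_sdiff_of_subset (Finset.subset_univ _), Finset.card_univ, Fintype.card_fin,
    Nat.cast_sub]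
  exact (Finset.card_le_univ _).trans (by simp)

/-- resampling the colour of `v`: expected number of vertices of `S` sharing the colour of `v`. -/
lemma share_bound (H : SimpleGraph V) (q : ℕ) (hq : Fintype.card V ≤ q) (x v : V) (hvx : v ≠ x)
    (S : Finset V) (hxS : x ∉ S) (hx : ∀ u, ¬ H.Adj x u) :
    (q : ℝ) * ∑ φ ∈ Col H q, (((S.erase v).filter (fun u => φ u = φ v)).card : ℝ)
      ≤ ((q : ℝ) - 2) * (Col H q).card := by
  have hn2 : 2 ≤ Fintype.card V := by
    have : ({v, x} : Finset V).card ≤ Fintype.card V := Finset.card_le_univ _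
    rwa [Finset.card_pair hvx] at this
  have hq2 : (2 : ℝ) ≤ q := by exact_mod_cast hn2.trans hq
  have hqpos : (0 : ℝ) < q := by linarith
  have key : (q : ℝ) * ((q : ℝ) * ∑ φ ∈ Col H q,
      (((S.erase v).filter (fun u => φ u = φ v)).card : ℝ))
      ≤ ((q : ℝ) - 2) * ((q : ℝ) * (Col H q).card) := by
    rw [sum_swap H q v, card_remove H q v, Finset.mul_sum, Finset.mul_sum]
    apply Finset.sum_le_sum
    intro φ _
    -- the inner sum counts vertices whose colour is available
    have h1 : ∑ c ∈ Finset.univ \ (nb H v).image φ,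
        (((S.erase v).filter (fun u => update φ v c u = update φ v c v)).card : ℝ)
        ≤ (((Finset.univ.erase v).erase x) \ nb H v).card := by
      have h2 : ∀ c ∈ Finset.univ \ (nb H v).image φ,
          ((S.erase v).filter (fun u => update φ v c u = update φ v c v))
          = (S.erase v).filter (fun u => φ u = c) := by
        intro c _
        apply Finset.filter_congr
        intro u hu
        rw [update_self, update_of_ne (Finset.ne_of_mem_erase hu)]
      rw [Finset.sum_congr rfl (fun c hc => by rw [h2 c hc])]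
      rw [← Nat.cast_sum, Nat.cast_le]
      rw [← Finset.card_biUnion]
      · apply Finset.card_le_card
        intro u hu
        rw [Finset.mem_biUnion] at hu
        obtain ⟨c, hc, hu⟩ := hu
        rw [Finset.mem_filter, Finset.mem_erase] at hu
        rw [Finset.mem_sdiff, Finset.mem_image] at hc
        rw [Finset.mem_sdiff, Finset.mem_erase, Finset.mem_erase]
        refine ⟨⟨fun h => hxS (h ▸ hu.1.2), hu.1.1, Finset.mem_univ _⟩, fun h => hc.2 ⟨u, h, hu.2⟩⟩
      · intro c _ c' _ hcc'
        rw [Function.onFun, Finset.disjoint_left]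
        intro u hu hu'
        rw [Finset.mem_filter] at hu hu'
        exact hcc' (hu.2.symm.trans hu'.2)
    have h3 : (((Finset.univ.erase v).erase x) \ nb H v).card + (nb H v).card + 2
        = Fintype.card V := by
      have hsub : nb H v ⊆ (Finset.univ.erase v).erase x := by
        intro u hu
        rw [mem_nb] at hu
        rw [Finset.mem_erase, Finset.mem_erase]
        exact ⟨fun h => hx v (h ▸ hu.symm), hu.ne', Finset.mem_univ _⟩
      have h4 := Finset.card_sdiff_add_card_eq_card hsub
      have h5 : ((Finset.univ.erase v).erase x).card = Fintype.card V - 2 := by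
        rw [Finset.card_erase_of_mem (Finset.mem_erase.2 ⟨hvx.symm, Finset.mem_univ _⟩),
          Finset.card_erase_of_mem (Finset.mem_univ _), Finset.card_univ]
        rfl
      omega
    have h6 : ((nb H v).image φ).card ≤ (nb H v).card := Finset.card_image_le
    have h3' : ((((Finset.univ.erase v).erase x) \ nb H v).card : ℝ) + (nb H v).card + 2
        = Fintype.card V := by exact_mod_cast h3
    have h6' : (((nb H v).image φ).card : ℝ) ≤ (nb H v).card := by exact_mod_cast h6
    have hq' : (Fintype.card V : ℝ) ≤ q := by exact_mod_cast hq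
    have h7 : (q : ℝ) * ∑ c ∈ Finset.univ \ (nb H v).image φ,
        (((S.erase v).filter (fun u => update φ v c u = update φ v c v)).card : ℝ)
        ≤ q * (((Finset.univ.erase v).erase x) \ nb H v).card :=
      mul_le_mul_of_nonneg_left h1 hqpos.le
    refine h7.trans ?_
    have h8 : (0 : ℝ) ≤ (nb H v).card := Nat.cast_nonneg _
    nlinarith
  have : (q : ℝ) * ((q : ℝ) * ∑ φ ∈ Col H q,
      (((S.erase v).filter (fun u => φ u = φ v)).card : ℝ))
      ≤ (q : ℝ) * (((q : ℝ) - 2) * (Col H q).card) := by linarith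
  exact le_of_mul_le_mul_left this hqpos

/-- number of repetitions versus number of monochromatic ordered pairs -/
lemma rep_le {q : ℕ} (φ : V → Fin q) (S : Finset V) :
    2 * ((S.card : ℝ) - (S.image φ).card)
      ≤ ∑ v ∈ S, (((S.erase v).filter (fun u => φ u = φ v)).card : ℝ) := by
  induction S using Finset.induction_on with
  | empty => simp
  | insert a S ha ih =>
    have h1 : ∑ v ∈ insert a S, ((((insert a S).erase v).filter (fun u => φ u = φ v)).card : ℝ)
        = ((S.filter (fun u => φ u = φ a)).card : ℝ)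
          + ∑ v ∈ S, ((((S.erase v).filter (fun u => φ u = φ v)).card : ℝ)
            + if φ v = φ a then 1 else 0) := by
      rw [Finset.sum_insert ha, Finset.erase_insert ha]
      congr 1
      apply Finset.sum_congr rfl
      intro v hv
      have hva : a ≠ v := fun h => ha (h ▸ hv)
      rw [Finset.erase_insert_of_ne hva, Finset.filter_insert]
      by_cases h : φ a = φ v
      · rw [if_pos h, if_pos h.symm, Finset.card_insert_of_notMem]
        · push_cast; ring
        · intro h'
          exact ha (Finset.mem_of_mem_erase (Finset.mem_filter.1 h').1)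
      · rw [if_neg h, if_neg (fun h' => h h'.symm), add_zero]
    have h2 : ∑ v ∈ S, (if φ v = φ a then (1 : ℝ) else 0)
        = ((S.filter (fun u => φ u = φ a)).card : ℝ) := by
      rw [← Finset.sum_filter]; simp
    rw [h1, Finset.sum_add_distrib, h2, Finset.card_insert_of_notMem ha, Finset.image_insert]
    by_cases hm : φ a ∈ S.image φ
    · rw [Finset.insert_eq_of_mem hm]
      have h3 : 1 ≤ (S.filter (fun u => φ u = φ a)).card := by
        rw [Finset.mem_image] at hm
        obtain ⟨u, hu, hua⟩ := hm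
        exact Finset.card_pos.2 ⟨u, Finset.mem_filter.2 ⟨hu, hua⟩⟩
      have h3' : (1 : ℝ) ≤ (S.filter (fun u => φ u = φ a)).card := by exact_mod_cast h3
      push_cast
      linarith
    · rw [Finset.card_insert_of_notMem hm]
      have h3' : (0 : ℝ) ≤ (S.filter (fun u => φ u = φ a)).card := Nat.cast_nonneg _
      push_cast
      linarith

/-- the bound on the weighted number of repetitions -/
lemma rep_bound (H : SimpleGraph V) (q : ℕ) (hq : Fintype.card V ≤ q) (x : V)
    (S : Finset V) (hxS : x ∉ S) (hx : ∀ u, ¬ H.Adj x u) :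
    2 * (q : ℝ) * ∑ φ ∈ Col H q, ((S.card : ℝ) - (S.image φ).card)
      ≤ S.card * (((q : ℝ) - 2) * (Col H q).card) := by
  have h1 : 2 * (q : ℝ) * ∑ φ ∈ Col H q, ((S.card : ℝ) - (S.image φ).card)
      ≤ (q : ℝ) * ∑ φ ∈ Col H q, ∑ v ∈ S,
          (((S.erase v).filter (fun u => φ u = φ v)).card : ℝ) := by
    rw [mul_comm 2 (q : ℝ), mul_assoc, Finset.mul_sum]
    apply mul_le_mul_of_nonneg_left _ (Nat.cast_nonneg _)
    apply Finset.sum_le_sum
    intro φ _
    exact rep_le φ S
  refine h1.trans ?_
  rw [Finset.sum_comm, Finset.mul_sum]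
  calc ∑ v ∈ S, (q : ℝ) * ∑ φ ∈ Col H q, (((S.erase v).filter (fun u => φ u = φ v)).card : ℝ)
      ≤ ∑ v ∈ S, ((q : ℝ) - 2) * (Col H q).card := by
        apply Finset.sum_le_sum
        intro v hv
        exact share_bound H q hq x v (fun h => hxS (h ▸ hv)) S hxS hx
    _ = S.card * (((q : ℝ) - 2) * (Col H q).card) := by
        rw [Finset.sum_const, nsmul_eq_mul]

/-- colourings giving `a` and `b` the same colour -/
lemma card_contr (H : SimpleGraph V) (q : ℕ) (a b : V) (hab : a ≠ b) (hna : ¬ H.Adj a b) :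
    (Col (contr H a b hna) q).card
      = q * ((Col H q).filter (fun φ => φ a = φ b)).card := by
  have h1 : q * ((Col H q).filter (fun φ => φ a = φ b)).card
      = (((Col H q).filter (fun φ => φ a = φ b)) ×ˢ (Finset.univ : Finset (Fin q))).card := by
    rw [Finset.card_product, Finset.card_univ, Fintype.card_fin, mul_comm]
  rw [h1]
  apply Finset.card_nbij' (fun ψ => (update ψ a (ψ b), ψ a)) (fun p => update p.1 a p.2)
  · intro ψ hψ
    rw [Finset.mem_coe, mem_Col] at hψ
    simp only [Finset.coe_product, Set.mem_prod, Finset.mem_coe, Finset.mem_filter, mem_Col,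
      Finset.mem_univ, and_true]
    constructor
    · intro u v huv
      by_cases hu : u = a
      · subst hu
        have hvb : v ≠ b := fun h => hna (h ▸ huv)
        rw [update_self, update_of_ne huv.ne']
        exact hψ b v ⟨hab.symm, huv.ne', Or.inr (Or.inl ⟨rfl, huv⟩)⟩
      · by_cases hv : v = a
        · subst hv
          rw [update_self, update_of_ne hu]
          exact hψ u b ⟨hu, hab.symm, Or.inr (Or.inr ⟨rfl, huv.symm⟩)⟩
        · rw [update_of_ne hu, update_of_ne hv]
          exact hψ u v ⟨hu, hv, Or.inl huv⟩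
    · rw [update_self, update_of_ne hab.symm]
  · intro p hp
    simp only [Finset.coe_product, Set.mem_prod, Finset.mem_coe, Finset.mem_filter, mem_Col,
      Finset.mem_univ, and_true] at hp
    rw [Finset.mem_coe, mem_Col]
    rintro u v ⟨hu, hv, h | ⟨h, h'⟩ | ⟨h, h'⟩⟩
    all_goals show update p.1 a p.2 u ≠ update p.1 a p.2 v
    · rw [update_of_ne hu, update_of_ne hv]
      exact hp.1 u v h
    · subst h
      rw [update_of_ne hu, update_of_ne hv, ← hp.2]
      exact hp.1 a v h'
    · subst h
      rw [update_of_ne hu, update_of_ne hv, ← hp.2]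
      exact (hp.1 a u h').symm
  · intro ψ _
    simp
  · intro p hp
    simp only [Finset.coe_product, Set.mem_prod, Finset.mem_coe, Finset.mem_filter, mem_Col,
      Finset.mem_univ, and_true] at hp
    rcases p with ⟨φ, c⟩
    have hp2 : φ a = φ b := hp.2
    simp only [update_self, update_idem, Prod.mk.injEq, and_true]
    rw [update_of_ne hab.symm, ← hp2, update_eq_self]

/-- The induction hypothesis: all graphs supported on `T` with a `k`-clique satisfy the bound. -/
def Good (T : Finset V) (k L : ℕ) (ρ : ℝ) : Prop :=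
  ∀ (G : SimpleGraph V) (K : Finset V), (∀ u v, G.Adj u v → u ∈ T) → K.card = k →
    (∀ u ∈ K, ∀ v ∈ K, u ≠ v → G.Adj u v) →
    ((Col G (L - 1)).card : ℝ) ≤ ρ * (Col G L).card

/-- number of colourings repeating at `a` a colour of `S` -/
lemma repeat_bound (T : Finset V) (k L : ℕ) (ρ : ℝ) (hL : 1 ≤ L) (hρ : 0 ≤ ρ)
    (hT : Good T k L ρ) (a : V) (haT : a ∈ T) (K : Finset V) (hK : K.card = k)
    (S : Finset V) (haS : a ∉ S) (hST : S ⊆ T) :
    ∀ H : SimpleGraph V, (∀ u v, H.Adj u v → u ∈ T) →
    (∀ u ∈ K, ∀ v ∈ K, u ≠ v → H.Adj u v) →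
    ((L - 1 : ℕ) : ℝ) * ((Col H (L - 1)).filter (fun φ => φ a ∈ S.image φ)).card
      ≤ ρ * ((L : ℝ) * ((Col H L).filter (fun φ => φ a ∈ S.image φ)).card) := by
  induction S using Finset.induction_on with
  | empty => intro H _ _; simp
  | insert b S hb ih =>
    intro H hH hKH
    have hab : a ≠ b := fun h => haS (h ▸ Finset.mem_insert_self _ _)
    have haS' : a ∉ S := fun h => haS (Finset.mem_insert_of_mem h)
    have hST' : S ⊆ T := (Finset.subset_insert _ _).trans hST
    have hbT : b ∈ T := hST (Finset.mem_insert_self _ _)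
    by_cases hadj : H.Adj a b
    · have h1 : ∀ q : ℕ, (Col H q).filter (fun φ => φ a ∈ (insert b S).image φ)
          = (Col H q).filter (fun φ => φ a ∈ S.image φ) := by
        intro q
        apply Finset.filter_congr
        intro φ hφ
        rw [Finset.image_insert, Finset.mem_insert]
        constructor
        · rintro (h | h)
          · exact absurd h (mem_Col.1 hφ a b hadj)
          · exact h
        · exact Or.inr
      rw [h1, h1]
      exact ih haS' hST' H hH hKH
    · -- split
      have h1 : ∀ q : ℕ, ((Col H q).filter (fun φ => φ a ∈ (insert b S).image φ)).card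
          = ((Col H q).filter (fun φ => φ a = φ b)).card
            + ((Col (addE H a b hab) q).filter (fun φ => φ a ∈ S.image φ)).card := by
        intro q
        rw [← Finset.card_union_of_disjoint]
        · congr 1
          ext φ
          simp only [Finset.mem_union, Finset.mem_filter, mem_Col, Finset.image_insert,
            Finset.mem_insert]
          constructor
          · rintro ⟨h, h'⟩
            by_cases he : φ a = φ b
            · exact Or.inl ⟨h, he⟩
            · refine Or.inr ⟨?_, h'.resolve_left he⟩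
              rintro u v (h2 | ⟨h2, h3⟩ | ⟨h2, h3⟩)
              · exact h u v h2
              · rw [h2, h3]; exact he
              · rw [h2, h3]; exact fun h4 => he h4.symm
          · rintro (⟨h, h'⟩ | ⟨h, h'⟩)
            · exact ⟨h, Or.inl h'⟩
            · exact ⟨fun u v huv => h u v (Or.inl huv), Or.inr h'⟩
        · rw [Finset.disjoint_left]
          intro φ h h'
          rw [Finset.mem_filter, mem_Col] at h h'
          exact h'.1 a b (Or.inr (Or.inl ⟨rfl, rfl⟩)) h.2
      have h2 := ih haS' hST' (addE H a b hab) (by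
        rintro u v (h2 | ⟨h2, h3⟩ | ⟨h2, h3⟩)
        · exact hH u v h2
        · rw [h2]; exact haT
        · rw [h2]; exact hbT) (fun u hu v hv huv => Or.inl (hKH u hu v hv huv))
      -- contraction
      have h3 : ((Col (contr H a b hadj) (L - 1)).card : ℝ)
          ≤ ρ * (Col (contr H a b hadj) L).card := by
        have hsup : ∀ u v, (contr H a b hadj).Adj u v → u ∈ T := by
          rintro u v ⟨_, _, h | ⟨h, h'⟩ | ⟨h, h'⟩⟩
          · exact hH u v h
          · rw [h]; exact hbT
          · exact hH u a h'.symm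
        by_cases haK : a ∈ K
        · have hbK : b ∉ K := fun h => hadj (hKH a haK b h hab)
          apply hT (contr H a b hadj) (insert b (K.erase a)) hsup
          · rw [Finset.card_insert_of_notMem (fun h => hbK (Finset.mem_of_mem_erase h)),
              Finset.card_erase_of_mem haK, hK]
            have : 0 < K.card := Finset.card_pos.2 ⟨a, haK⟩
            omega
          · intro u hu v hv huv
            rw [Finset.mem_insert, Finset.mem_erase] at hu hv
            rcases hu with hu | hu
            · rcases hv with hv | hv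
              · exact absurd (hu.trans hv.symm) huv
              · exact ⟨fun h => hab (h.symm.trans hu), hv.1,
                  Or.inr (Or.inl ⟨hu, hKH a haK v hv.2 (fun h => hv.1 h.symm)⟩)⟩
            · rcases hv with hv | hv
              · exact ⟨hu.1, fun h => hab (h.symm.trans hv),
                  Or.inr (Or.inr ⟨hv, hKH a haK u hu.2 (fun h => hu.1 h.symm)⟩)⟩
              · exact ⟨hu.1, hv.1, Or.inl (hKH u hu.2 v hv.2 huv)⟩
        · apply hT (contr H a b hadj) K hsup hK
          intro u hu v hv huv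
          exact ⟨fun h => haK (h ▸ hu), fun h => haK (h ▸ hv), Or.inl (hKH u hu v hv huv)⟩
      rw [card_contr H _ a b hab hadj, card_contr H _ a b hab hadj] at h3
      rw [h1, h1]
      push_cast at h3 ⊢
      linarith

/-- the weighted number of repetitions -/
lemma rep_ind (T : Finset V) (k L : ℕ) (ρ : ℝ) (hL : 1 ≤ L) (hρ : 0 ≤ ρ)
    (hT : Good T k L ρ) (K : Finset V) (hK : K.card = k) (H : SimpleGraph V)
    (hH : ∀ u v, H.Adj u v → u ∈ T) (hKH : ∀ u ∈ K, ∀ v ∈ K, u ≠ v → H.Adj u v)
    (S : Finset V) (hST : S ⊆ T) :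
    ((L - 1 : ℕ) : ℝ) * ∑ φ ∈ Col H (L - 1), ((S.card : ℝ) - (S.image φ).card)
      ≤ ρ * ((L : ℝ) * ∑ φ ∈ Col H L, ((S.card : ℝ) - (S.image φ).card)) := by
  induction S using Finset.induction_on with
  | empty => simp
  | insert a S ha ih =>
    have hST' : S ⊆ T := (Finset.subset_insert _ _).trans hST
    have haT : a ∈ T := hST (Finset.mem_insert_self _ _)
    have h1 : ∀ q : ℕ, ∑ φ ∈ Col H q, (((insert a S).card : ℝ) - ((insert a S).image φ).card)
        = ∑ φ ∈ Col H q, ((S.card : ℝ) - (S.image φ).card)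
          + ((Col H q).filter (fun φ => φ a ∈ S.image φ)).card := by
      intro q
      have h2 : (((Col H q).filter (fun φ => φ a ∈ S.image φ)).card : ℝ)
          = ∑ φ ∈ Col H q, if φ a ∈ S.image φ then (1 : ℝ) else 0 := by
        rw [← Finset.sum_filter]; simp
      rw [h2, ← Finset.sum_add_distrib]
      apply Finset.sum_congr rfl
      intro φ _
      rw [Finset.card_insert_of_notMem ha, Finset.image_insert]
      by_cases hm : φ a ∈ S.image φ
      · rw [Finset.insert_eq_of_mem hm, if_pos hm]; push_cast; ring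
      · rw [Finset.card_insert_of_notMem hm, if_neg hm]; push_cast; ring
    rw [h1, h1]
    have h3 := repeat_bound T k L ρ hL hρ hT a haT K hK S ha hST' H hH hKH
    have h4 := ih hST'
    linarith

/-- the inductive step -/
lemma step (T : Finset V) (k L : ℕ) (ρ : ℝ) (hL : 2 ≤ L) (hn : Fintype.card V ≤ L) (hρ : 0 ≤ ρ)
    (x : V) (hT : Good (T.erase x) k L ρ) (G : SimpleGraph V) (K : Finset V) (hK : K.card = k)
    (hG : ∀ u v, G.Adj u v → u ∈ T) (hKG : ∀ u ∈ K, ∀ v ∈ K, u ≠ v → G.Adj u v) (hxK : x ∉ K) :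
    ((Col G (L - 1)).card : ℝ) ≤ ρ * (Col G L).card := by
  have hHsup : ∀ u v, (iso G x).Adj u v → u ∈ T.erase x := fun u v h =>
    Finset.mem_erase.2 ⟨h.2.1, hG u v h.1⟩
  have hHK : ∀ u ∈ K, ∀ v ∈ K, u ≠ v → (iso G x).Adj u v := fun u hu v hv huv =>
    ⟨hKG u hu v hv huv, fun h => hxK (h ▸ hu), fun h => hxK (h ▸ hv)⟩
  have hxS : x ∉ nb G x := fun h => (mem_nb.1 h).ne rfl
  have hST : nb G x ⊆ T.erase x := by
    intro v hv
    rw [mem_nb] at hv
    exact Finset.mem_erase.2 ⟨hv.ne', hG v x hv.symm⟩
  have hx0 : ∀ u, ¬ (iso G x).Adj x u := fun u h => h.2.1 rfl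
  have hA := hT (iso G x) K hHsup hK hHK
  have hB := rep_ind (T.erase x) k L ρ (by omega) hρ hT K hK (iso G x) hHsup hHK (nb G x) hST
  have hC := rep_bound (iso G x) L hn x (nb G x) hxS hx0
  have hr : ∀ q : ℕ, (q : ℝ) * (Col G q).card
      = ((q : ℝ) - (nb G x).card) * (Col (iso G x) q).card
        + ∑ φ ∈ Col (iso G x) q, (((nb G x).card : ℝ) - ((nb G x).image φ).card) := by
    intro q
    rw [card_remove G q x, Finset.sum_sub_distrib, Finset.sum_sub_distrib, Finset.sum_const,
      Finset.sum_const]
    simp only [nsmul_eq_mul]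
    ring
  have hd : ((nb G x).card : ℝ) + 1 ≤ L := by
    have h1 : (nb G x).card + 1 ≤ Fintype.card V := by
      rw [← Finset.card_insert_of_notMem hxS]
      exact Finset.card_le_univ _
    exact_mod_cast h1.trans hn
  have h1 := hr (L - 1)
  have h2 := hr L
  have hL2 : (2 : ℝ) ≤ L := by exact_mod_cast hL
  have hc : ((L - 1 : ℕ) : ℝ) = (L : ℝ) - 1 := by
    rw [Nat.cast_sub (by omega)]; simp
  rw [hc] at h1 hB
  set A' : ℝ := ((Col (iso G x) (L - 1)).card : ℝ)
  set A : ℝ := ((Col (iso G x) L).card : ℝ)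
  set B' : ℝ := ∑ φ ∈ Col (iso G x) (L - 1), (((nb G x).card : ℝ) - ((nb G x).image φ).card)
  set B : ℝ := ∑ φ ∈ Col (iso G x) L, (((nb G x).card : ℝ) - ((nb G x).image φ).card)
  set d : ℝ := ((nb G x).card : ℝ)
  set l : ℝ := (L : ℝ)
  have hd0 : (0 : ℝ) ≤ d := Nat.cast_nonneg _
  have hA0 : 0 ≤ A := Nat.cast_nonneg _
  -- goal: Gq ≤ ρ G
  have hl1 : 0 < l - 1 := by linarith
  have hl0 : 0 < l := by linarith
  -- B bound
  have hC' : 2 * l * B ≤ d * ((l - 2) * A) := hC
  -- (l-1)^2 * l * Gm ≤ ρ * (l-1)^2 * l * G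
  have e1 : (l - 1) * ((l - 1) * ((Col G (L - 1)).card : ℝ))
      ≤ ρ * ((l - 1) * ((l - 1 - d) * A) + l * B) := by
    rw [h1]
    have i1 : (l - 1) * ((l - 1 - d) * A') ≤ (l - 1) * ((l - 1 - d) * (ρ * A)) := by
      apply mul_le_mul_of_nonneg_left _ hl1.le
      exact mul_le_mul_of_nonneg_left hA (by linarith)
    nlinarith
  have e2 : l * ((l - 1) * ((l - 1 - d) * A) + l * B)
      ≤ (l - 1) * ((l - 1) * (l * ((Col G L).card : ℝ))) := by
    rw [h2]
    -- B (2l-1) ≤ d (l-1) A
    have i2 : B * (2 * l - 1) ≤ d * ((l - 1) * A) := by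
      have i3 : 2 * l * (B * (2 * l - 1)) ≤ 2 * l * (d * ((l - 1) * A)) := by
        have i4 : (2 * l - 1) * (2 * l * B) ≤ (2 * l - 1) * (d * ((l - 2) * A)) :=
          mul_le_mul_of_nonneg_left hC' (by linarith)
        have i5 : 0 ≤ d * A := mul_nonneg hd0 hA0
        nlinarith
      exact le_of_mul_le_mul_left i3 (by linarith)
    nlinarith
  have e3 : l * ((l - 1) * ((l - 1) * ((Col G (L - 1)).card : ℝ)))
      ≤ l * ((l - 1) * ((l - 1) * (ρ * ((Col G L).card : ℝ)))) := by
    calc l * ((l - 1) * ((l - 1) * ((Col G (L - 1)).card : ℝ)))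
        ≤ l * (ρ * ((l - 1) * ((l - 1 - d) * A) + l * B)) :=
          mul_le_mul_of_nonneg_left e1 hl0.le
      _ = ρ * (l * ((l - 1) * ((l - 1 - d) * A) + l * B)) := by ring
      _ ≤ ρ * ((l - 1) * ((l - 1) * (l * ((Col G L).card : ℝ)))) :=
          mul_le_mul_of_nonneg_left e2 hρ
      _ = l * ((l - 1) * ((l - 1) * (ρ * ((Col G L).card : ℝ)))) := by ring
  exact le_of_mul_le_mul_left (le_of_mul_le_mul_left (le_of_mul_le_mul_left e3 hl0) hl1) hl1

/-- the constant -/
noncomputable def rho (n k L : ℕ) : ℝ := (1 - (k : ℝ) / L) * (1 - 1 / (L : ℝ)) ^ (n - k)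

lemma rho_nonneg (n k L : ℕ) (hk : k ≤ L) (hL : 1 ≤ L) : 0 ≤ rho n k L := by
  have hL' : (1 : ℝ) ≤ L := by exact_mod_cast hL
  have hk' : (k : ℝ) ≤ L := by exact_mod_cast hk
  apply mul_nonneg
  · rw [sub_nonneg, div_le_one (by linarith)]; exact hk'
  · apply pow_nonneg
    rw [sub_nonneg, div_le_one (by linarith)]; exact hL'

/-- complete graphs with isolated vertices -/
lemma base (L : ℕ) (hL : 2 ≤ L) (hn : Fintype.card V ≤ L) (K : Finset V) :
    ∀ G : SimpleGraph V, (∀ u v, G.Adj u v ↔ u ∈ K ∧ v ∈ K ∧ u ≠ v) →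
    ((Col G (L - 1)).card : ℝ) = rho (Fintype.card V) K.card L * (Col G L).card := by
  have hL2 : (2 : ℝ) ≤ L := by exact_mod_cast hL
  have hc : ((L - 1 : ℕ) : ℝ) = (L : ℝ) - 1 := by
    rw [Nat.cast_sub (by omega)]; simp
  induction K using Finset.induction_on with
  | empty =>
    intro G hG
    have h1 : ∀ q : ℕ, (Col G q).card = q ^ Fintype.card V := by
      intro q
      have : Col G q = Finset.univ := by
        ext φ
        simp [mem_Col, hG]
      rw [this, Finset.card_univ, Fintype.card_fun, Fintype.card_fin]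
    rw [h1, h1, rho]
    push_cast
    rw [hc]
    simp only [Finset.card_empty, Nat.cast_zero, zero_div, sub_zero, one_mul, Nat.sub_zero]
    rw [← mul_pow]
    congr 1
    field_simp
  | insert x K hx ih =>
    intro G hG
    have hiso : ∀ u v, (iso G x).Adj u v ↔ u ∈ K ∧ v ∈ K ∧ u ≠ v := by
      intro u v
      constructor
      · rintro ⟨h, hu, hv⟩
        rw [hG, Finset.mem_insert, Finset.mem_insert] at h
        exact ⟨h.1.resolve_left hu, h.2.1.resolve_left hv, h.2.2⟩
      · rintro ⟨hu, hv, huv⟩
        refine ⟨(hG u v).2 ⟨Finset.mem_insert_of_mem hu, Finset.mem_insert_of_mem hv, huv⟩,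
          fun h => hx (h ▸ hu), fun h => hx (h ▸ hv)⟩
    have hnb : nb G x = K := by
      ext v
      rw [mem_nb, hG]
      constructor
      · rintro ⟨_, h2, h3⟩
        exact (Finset.mem_insert.1 h2).resolve_left (fun h => h3 h.symm)
      · intro h
        exact ⟨Finset.mem_insert_self _ _, Finset.mem_insert_of_mem h, fun h' => hx (h' ▸ h)⟩
    have hr : ∀ q : ℕ, (q : ℝ) * (Col G q).card
        = ((q : ℝ) - K.card) * (Col (iso G x) q).card := by
      intro q
      rw [card_remove G q x, hnb]
      have : ∀ φ ∈ Col (iso G x) q, ((q : ℝ) - (K.image φ).card) = (q : ℝ) - K.card := by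
        intro φ hφ
        rw [Finset.card_image_of_injOn]
        intro u hu v hv huv
        by_contra hne
        exact mem_Col.1 hφ u v ((hiso u v).2 ⟨hu, hv, hne⟩) huv
      rw [Finset.sum_congr rfl this, Finset.sum_const, nsmul_eq_mul, mul_comm]
    have h1 := hr (L - 1)
    have h2 := hr L
    have h3 := ih (iso G x) hiso
    have hkn : K.card + 1 ≤ Fintype.card V := by
      rw [← Finset.card_insert_of_notMem hx]
      exact Finset.card_le_univ _
    have hkL : (K.card : ℝ) + 1 ≤ L := by exact_mod_cast hkn.trans hn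
    rw [Finset.card_insert_of_notMem hx]
    have hrho : ((L : ℝ) - 1) * ((L : ℝ) - K.card) * rho (Fintype.card V) (K.card + 1) L
        = ((L : ℝ) - 1 - K.card) * L * rho (Fintype.card V) K.card L := by
      rw [rho, rho]
      have : Fintype.card V - K.card = (Fintype.card V - (K.card + 1)) + 1 := by omega
      rw [this, pow_succ]
      push_cast
      field_simp
      ring
    rw [hc] at h1
    have hl1 : (0 : ℝ) < (L : ℝ) - 1 := by linarith
    have hlk : (0 : ℝ) < (L : ℝ) - K.card := by linarith
    have e : ((L : ℝ) - 1) * (((L : ℝ) - K.card) * ((Col G (L - 1)).card : ℝ))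
        = ((L : ℝ) - 1) * (((L : ℝ) - K.card) *
          (rho (Fintype.card V) (K.card + 1) L * (Col G L).card)) := by
      calc ((L : ℝ) - 1) * (((L : ℝ) - K.card) * ((Col G (L - 1)).card : ℝ))
          = ((L : ℝ) - K.card) * (((L : ℝ) - 1) * ((Col G (L - 1)).card : ℝ)) := by ring
        _ = ((L : ℝ) - K.card) * (((L : ℝ) - 1 - K.card) * ((Col (iso G x) (L - 1)).card : ℝ)) := by
            rw [h1]
        _ = ((L : ℝ) - 1 - K.card) * rho (Fintype.card V) K.card L *
              (((L : ℝ) - K.card) * ((Col (iso G x) L).card : ℝ)) := by rw [h3]; ring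
        _ = ((L : ℝ) - 1 - K.card) * rho (Fintype.card V) K.card L *
              ((L : ℝ) * ((Col G L).card : ℝ)) := by rw [h2]
        _ = (((L : ℝ) - 1 - K.card) * L * rho (Fintype.card V) K.card L) *
              ((Col G L).card : ℝ) := by ring
        _ = _ := by rw [← hrho]; ring
    exact mul_left_cancel₀ hlk.ne' (mul_left_cancel₀ hl1.ne' e)

/-- all supports are good -/
lemma good_all (L : ℕ) (hL : 2 ≤ L) (hn : Fintype.card V ≤ L) (k : ℕ) (hk : k ≤ L) :
    ∀ (m : ℕ) (T : Finset V), T.card = m → Good T k L (rho (Fintype.card V) k L) := by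
  intro m
  induction m with
  | zero =>
    intro T hT G K hG hK hKG
    have h1 := base L hL hn K G (by
      intro u v
      constructor
      · intro h
        have := hG u v h
        rw [Finset.card_eq_zero.1 hT] at this
        simp at this
      · rintro ⟨hu, hv, huv⟩
        exact hKG u hu v hv huv)
    rw [h1, hK]
  | succ m ih =>
    intro T hT G K hG hK hKG
    by_cases hTK : T ⊆ K
    · have h1 := base L hL hn K G (by
        intro u v
        constructor
        · intro h
          exact ⟨hTK (hG u v h), hTK (hG v u h.symm), h.ne⟩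
        · rintro ⟨hu, hv, huv⟩
          exact hKG u hu v hv huv)
      rw [h1, hK]
    · rw [Finset.not_subset] at hTK
      obtain ⟨x, hxT, hxK⟩ := hTK
      have hT' : (T.erase x).card = m := by
        rw [Finset.card_erase_of_mem hxT, hT]; rfl
      exact step T k L _ hL hn (rho_nonneg _ _ _ hk (by omega)) x (ih (T.erase x) hT') G K hK hG
        hKG hxK

/-- the main inequality -/
theorem main (L : ℕ) (hL : 2 ≤ L) (hn : Fintype.card V ≤ L) (G : SimpleGraph V) (K : Finset V)
    (hK : ∀ u ∈ K, ∀ v ∈ K, u ≠ v → G.Adj u v) :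
    ((Col G (L - 1)).card : ℝ) ≤ rho (Fintype.card V) K.card L * (Col G L).card :=
  good_all L hL hn K.card ((Finset.card_le_univ _).trans hn) _ Finset.univ rfl G K
    (fun _ _ _ => Finset.mem_univ _) rfl hK

lemma card_coloring (G : SimpleGraph V) (q : ℕ) :
    Nat.card (G.Coloring (Fin q)) = (Col G q).card := by
  have e : G.Coloring (Fin q) ≃ {φ : V → Fin q // φ ∈ Col G q} :=
    { toFun := fun C => ⟨fun v => C v, mem_Col.2 (fun u v h => C.valid h)⟩
      invFun := fun φ => SimpleGraph.Coloring.mk φ.1 (fun {u v} h => mem_Col.1 φ.2 u v h)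
      left_inv := fun C => by ext v; rfl
      right_inv := fun φ => by ext v; rfl }
  rw [Nat.card_congr e, Nat.card_eq_fintype_card, Fintype.card_coe]

end Pool.Agent.Y491.Chrom
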